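import Pool.Agent.R79.SW.Step
import Pool.Agent.Results.MP_376faf_co.RatioRateLogTwo
import Pool.Agent.Results.MP_376faf_co.PolygonsInverseLength

/-!
Self-avoiding polygons on the square lattice: the limit points of the exponents
`-log (p_{2n} / μ^(2n)) / log n`, and exact power laws along subsequences.
-/

set_option autoImplicit false

open Filter Topology

namespace Pool.Agent.Results.MP_376faf_co.PowerLawsBetween

/-- the number of `n`-step self-avoiding walks on `ℤ²` started at the origin -/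
noncomputable def c (n : ℕ) : ℕ :=
  Nat.card {f : Fin (n + 1) → ℤ × ℤ // f 0 = 0 ∧ Function.Injective f ∧
    ∀ i : Fin n, |(f i.succ).1 - (f i.castSucc).1| + |(f i.succ).2 - (f i.castSucc).2| = 1}

/-- the number of self-avoiding polygons of perimeter `2n` on `ℤ²` up to translation: the number
of injective nearest-neighbour closed loops `f : ℤ/2n → ℤ²` with `f 0 = 0`, divided by `4n` (the
choices of the starting point and of the orientation) -/
noncomputable def p (n : ℕ) : ℝ :=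
  ((Nat.card {f : ZMod (2*n) → ℤ × ℤ // f 0 = 0 ∧ Function.Injective f ∧
    ∀ i : ZMod (2*n), |(f (i+1)).1 - (f i).1| + |(f (i+1)).2 - (f i).2| = 1} : ℕ) : ℝ)
    / (4 * (n:ℝ))

/-- the exponent at the perimeter `2n`: `p_{2n} = μ^(2n) n^(-θ_n)` -/
noncomputable def θ (μ : ℝ) (n : ℕ) : ℝ := -Real.log (p n / μ ^ (2 * n)) / Real.log n

/-- the (finite) limit points of the exponents `θ_n` -/
def limitPoints (μ : ℝ) : Set ℝ := {x | MapClusterPt x atTop (θ μ)}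

/-- infinitely many `n` of the parity `i` satisfy
`|p_{2n} / (μ^(2n) n^(-x)) - B| ≤ K (1 + |x|) B log n / √n` -/
def PowerLaw (μ K x B : ℝ) (i : ℕ) : Prop :=
  ∃ᶠ n : ℕ in atTop, n % 2 = i ∧
    |p n / μ ^ (2 * n) * (n : ℝ) ^ x - B| ≤ K * (1 + |x|) * B * (Real.log n / Real.sqrt n)

open Pool.Agent.R79.SW in
open Pool.Agent.R956.D2 (f f_nonneg f_tendsto) in
/-- the results for a positive sequence with slowly varying ratios, bounded exponents below -/
theorem pack' {v : ℕ → ℝ} (hv : ∀ n, 2 ≤ n → 0 < v n) {K0 : ℝ}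
    (h : ∀ n, 2 ≤ n → |v (n + 1) / v n - 1| ≤ K0 * (Real.log n / Real.sqrt n))
    {b : ℝ} (hb : ∀ᶠ n in atTop, b ≤ ex v n) :
    ∃ K : ℝ, 0 < K ∧
    (∀ c ε : ℝ, 0 < ε → (∃ᶠ n in atTop, ex v n ≤ c - ε) → (∃ᶠ n in atTop, c + ε ≤ ex v n) →
      ∀ B : ℝ, 0 < B → ∀ p : ℕ, p ≤ 1 → ∃ᶠ n : ℕ in atTop, n % 2 = p ∧
        |v n / (n : ℝ) ^ c - B| ≤ K * (1 + |c|) * B * (Real.log n / Real.sqrt n)) ∧
    (IsClosed (Lims (ex v)) ∧ (Lims (ex v)).OrdConnected) ∧
    (∀ γ : ℝ, Tendsto (ex v) atTop (𝓝 γ) ↔ γ ∈ Lims (ex v) ∧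
      ∃ δ : ℝ, 0 < δ ∧ (Lims (ex v) ∩ Set.Ioo (γ - δ) (γ + δ)).Countable) ∧
    (Tendsto (ex v) atTop atTop ∨ (∃ γ, Tendsto (ex v) atTop (𝓝 γ)) ∨
      ∃ x y : ℝ, x < y ∧ ∀ c ∈ Set.Ioo x y, ∀ B : ℝ, 0 < B → ∀ p : ℕ, p ≤ 1 →
        ∃ᶠ n : ℕ in atTop, n % 2 = p ∧
        |v n / (n : ℝ) ^ c - B| ≤ K * (1 + |c|) * B * (Real.log n / Real.sqrt n)) := by
  obtain ⟨K, hK, hK'⟩ : ∃ K : ℝ, 0 ≤ K ∧ ∀ n, 2 ≤ n → |v (n + 1) / v n - 1| ≤ K * f n :=
    ⟨|K0|, abs_nonneg _, fun n hn => (h n hn).trans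
      (mul_le_mul_of_nonneg_right (le_abs_self _) (f_nonneg n))⟩
  have S := slow_step hv hK hK'
  set u : ℕ → ℝ := fun n => if 2 ≤ n then v n else 1 with hu
  have huv : ∀ n, 2 ≤ n → u n = v n := fun n hn => by simp only [hu]; rw [if_pos hn]
  have hex : ∀ᶠ n in atTop, ex u n = ex v n := by
    filter_upwards [eventually_ge_atTop 2] with n hn
    unfold ex
    rw [huv n hn]
  have hL : Lims (ex u) = Lims (ex v) := by
    ext x
    show MapClusterPt x atTop (ex u) ↔ MapClusterPt x atTop (ex v)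
    unfold MapClusterPt
    rw [Filter.map_congr hex]
  have ht : ∀ l : Filter ℝ, Tendsto (ex u) atTop l ↔ Tendsto (ex v) atTop l := fun l =>
    tendsto_congr' hex
  have conv : ∀ {c B : ℝ} {p : ℕ}, 0 < B → (∃ᶠ n : ℕ in atTop, n % 2 = p ∧
      |u n / (n : ℝ) ^ c - B| ≤ B * (2 * (4 * K * f n) + 2 * |c| / n)) →
      ∃ᶠ n : ℕ in atTop, n % 2 = p ∧
        |v n / (n : ℝ) ^ c - B| ≤ (2 * (4 * K) + 4) * (1 + |c|) * B *
          (Real.log n / Real.sqrt n) := by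
    intro c B p hB h
    refine ((freq_err (K := 4 * K) (by linarith) hB h).and_eventually
      (eventually_ge_atTop 2)).mono fun n hn => ⟨hn.1.1, ?_⟩
    rw [← huv n hn.2]
    exact hn.1.2
  refine ⟨2 * (4 * K) + 4, by linarith, ?_, ⟨closed _, ?_⟩, fun γ => ?_, ?_⟩
  · intro c ε hε h1 h2 B hB p hp
    refine conv hB (main S hε ?_ ?_ hB hp)
    · exact (h1.and_eventually hex).mono fun n hn => by rw [hn.2]; exact hn.1
    · exact (h2.and_eventually hex).mono fun n hn => by rw [hn.2]; exact hn.1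
  · rw [← hL]
    exact ord S
  · rw [← ht, ← hL]
    exact isolated_iff S γ
  · have hb' : ∀ᶠ n in atTop, b ≤ ex u n := by
      filter_upwards [hb, hex] with n h1 h2
      rw [h2]; exact h1
    rcases above S hb' with h | ⟨γ, h⟩ | ⟨x, y, hxy, h⟩
    · exact Or.inl ((ht _).mp h)
    · exact Or.inr (Or.inl ⟨γ, (ht _).mp h⟩)
    · exact Or.inr (Or.inr ⟨x, y, hxy, fun c hc B hB p hp => conv hB (h c hc B hB p hp)⟩)

lemma c_eq (n : ℕ) : (c n : ℝ) = H981.cr' n :=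
  Pool.Agent.Results.MP_376faf_co.PolygonsInverseLength.c_eq n

lemma p_eq (n : ℕ) : p n = H981.PP n := rfl

lemma p_pos {n : ℕ} (hn : 2 ≤ n) : 0 < p n := Pool.Agent.H739K.PP_pos hn

/-- the ratios of `μ^(2n) / p_{2n}` -/
theorem ratio_bound {μ K2 : ℝ} (hμ : 0 < μ) (hK2 : ∀ n : ℕ, 2 ≤ n →
      |p (n + 1) / p n - μ ^ 2| ≤ K2 * (Real.log n / Real.sqrt n)) :
    ∃ K0 : ℝ, ∀ n : ℕ, 2 ≤ n → |μ ^ (2 * (n + 1)) / p (n + 1) / (μ ^ (2 * n) / p n) - 1| ≤
      K0 * (Real.log n / Real.sqrt n) := by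
  have hε : ∀ n : ℕ, 2 ≤ n → 0 < Real.log n / Real.sqrt n := by
    intro n hn
    have h2 : (2 : ℝ) ≤ n := by exact_mod_cast hn
    exact div_pos (Real.log_pos (by linarith)) (Real.sqrt_pos.mpr (by linarith))
  have hf : Tendsto (fun n : ℕ => K2 * (Real.log n / Real.sqrt n)) atTop (𝓝 0) := by
    have := (Pool.Agent.R956.D2.f_tendsto).const_mul K2
    rw [mul_zero] at this
    exact this
  have hf2 : ∀ᶠ n : ℕ in atTop, K2 * (Real.log n / Real.sqrt n) ≤ μ ^ 2 / 2 :=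
    hf.eventually_le_const (by positivity)
  obtain ⟨N, hN⟩ := eventually_atTop.mp hf2
  set F : ℕ → ℝ := fun n => |μ ^ (2 * (n + 1)) / p (n + 1) / (μ ^ (2 * n) / p n) - 1| with hF
  have hF0 : ∀ n, 0 ≤ F n := fun n => abs_nonneg _
  have hS : 0 ≤ ∑ m ∈ Finset.range N, F m / (Real.log m / Real.sqrt m) :=
    Finset.sum_nonneg fun m _ => div_nonneg (hF0 m)
      (div_nonneg (Real.log_natCast_nonneg m) (Real.sqrt_nonneg _))
  refine ⟨|K2| * 2 / μ ^ 2 + ∑ m ∈ Finset.range N, F m / (Real.log m / Real.sqrt m),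
    fun n hn => ?_⟩
  have hεn := hε n hn
  rcases lt_or_ge n N with h | h
  · have h1 : F n / (Real.log n / Real.sqrt n) ≤
        ∑ m ∈ Finset.range N, F m / (Real.log m / Real.sqrt m) :=
      Finset.single_le_sum (f := fun m : ℕ => F m / (Real.log m / Real.sqrt m))
        (fun m _ => div_nonneg (hF0 m)
          (div_nonneg (Real.log_natCast_nonneg m) (Real.sqrt_nonneg _))) (Finset.mem_range.mpr h)
    rw [div_le_iff₀ hεn] at h1
    have h2 : 0 ≤ |K2| * 2 / μ ^ 2 := by positivity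
    calc F n ≤ _ := h1
      _ ≤ _ := mul_le_mul_of_nonneg_right (by linarith) hεn.le
  · have hp := p_pos hn
    have hp1 : 0 < p (n + 1) := p_pos (by omega)
    have h1 := hK2 n hn
    have h2 := hN n h
    set x := p (n + 1) / p n with hx
    have hx0 : 0 < x := div_pos hp1 hp
    have hxl : μ ^ 2 / 2 ≤ x := by
      have := (abs_le.mp h1).1
      linarith
    have e : μ ^ (2 * (n + 1)) / p (n + 1) / (μ ^ (2 * n) / p n) - 1 = (μ ^ 2 - x) / x := by
      rw [hx, show 2 * (n + 1) = 2 * n + 2 by ring, pow_add]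
      field_simp
    have h3 : |μ ^ 2 - x| ≤ |K2| * (Real.log n / Real.sqrt n) := by
      rw [abs_sub_comm]
      exact h1.trans (mul_le_mul_of_nonneg_right (le_abs_self _) hεn.le)
    rw [e, abs_div, abs_of_pos hx0]
    calc |μ ^ 2 - x| / x ≤ (|K2| * (Real.log n / Real.sqrt n)) / (μ ^ 2 / 2) :=
          div_le_div₀ (by positivity) h3 (by positivity) hxl
      _ = |K2| * 2 / μ ^ 2 * (Real.log n / Real.sqrt n) := by field_simp
      _ ≤ _ := mul_le_mul_of_nonneg_right (by linarith) hεn.le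

/-- the tail sums exclude exponents below `3/2` -/
theorem sum_contra {μ K1 ε : ℝ} (hμ : 0 < μ) (hK1 : 0 < K1) (hε : 0 < ε) (hε1 : ε ≤ 1)
    (hs : ∀ n : ℕ, 2 ≤ n → ∀ m : ℕ, ∑ j ∈ Finset.Icc n m, p j / μ ^ (2 * j) ≤ K1 / Real.sqrt n)
    (h : ∀ᶠ n in atTop, θ μ n < 3 / 2 - ε) : False := by
  obtain ⟨N, hN⟩ := eventually_atTop.mp h
  have hlim : Tendsto (fun n : ℕ => (n : ℝ) ^ ε) atTop atTop :=
    (tendsto_rpow_atTop hε).comp tendsto_natCast_atTop_atTop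
  obtain ⟨n, h1, h2, h3⟩ := ((hlim.eventually_gt_atTop (K1 * 2 ^ (3 / 2 - ε))).and
    ((eventually_ge_atTop N).and (eventually_ge_atTop 2))).exists
  have hn0 : (0 : ℝ) < n := by exact_mod_cast (by omega : 0 < n)
  have h4 : ∀ j ∈ Finset.Icc n (2 * n), (2 * (n : ℝ)) ^ (-(3 / 2 - ε)) ≤ p j / μ ^ (2 * j) := by
    intro j hj
    rw [Finset.mem_Icc] at hj
    have hj2 : 2 ≤ j := by omega
    have hjr : (2 : ℝ) ≤ j := by exact_mod_cast hj2
    have hl : 0 < Real.log j := Real.log_pos (by linarith)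
    have hpj : 0 < p j / μ ^ (2 * j) := div_pos (p_pos hj2) (by positivity)
    have h5 := hN j (by omega)
    unfold θ at h5
    rw [div_lt_iff₀ hl] at h5
    have h6 : -(3 / 2 - ε) * Real.log j ≤ Real.log (p j / μ ^ (2 * j)) := by linarith
    have h7 : (j : ℝ) ^ (-(3 / 2 - ε)) ≤ p j / μ ^ (2 * j) := by
      rw [Real.rpow_def_of_pos (by linarith), ← Real.exp_log hpj]
      exact Real.exp_le_exp.mpr (by linarith)
    refine le_trans ?_ h7
    refine Real.rpow_le_rpow_of_nonpos (by linarith) ?_ (by linarith)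
    have : (j : ℝ) ≤ ((2 * n : ℕ) : ℝ) := by exact_mod_cast hj.2
    push_cast at this
    exact this
  have h5 := Finset.card_nsmul_le_sum _ _ _ h4
  rw [Nat.card_Icc, nsmul_eq_mul] at h5
  have h6 := h5.trans (hs n h3 (2 * n))
  have h7 : (n : ℝ) ≤ ((2 * n + 1 - n : ℕ) : ℝ) := by exact_mod_cast (by omega)
  have h8 : (n : ℝ) * (2 * (n : ℝ)) ^ (-(3 / 2 - ε)) ≤ K1 / Real.sqrt n :=
    (mul_le_mul_of_nonneg_right h7 (by positivity)).trans h6
  have e1 : (n : ℝ) * (2 * (n : ℝ)) ^ (-(3 / 2 - ε)) =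
      (n : ℝ) ^ ε / Real.sqrt n * (2 : ℝ) ^ (-(3 / 2 - ε)) := by
    rw [Real.mul_rpow (by norm_num) hn0.le, Real.sqrt_eq_rpow, ← Real.rpow_sub hn0]
    have : (n : ℝ) * ((2 : ℝ) ^ (-(3 / 2 - ε)) * (n : ℝ) ^ (-(3 / 2 - ε))) =
        ((n : ℝ) ^ (1 : ℝ) * (n : ℝ) ^ (-(3 / 2 - ε))) * (2 : ℝ) ^ (-(3 / 2 - ε)) := by
      rw [Real.rpow_one]; ring
    rw [this, ← Real.rpow_add hn0]
    congr 2
    ring
  rw [e1, div_mul_eq_mul_div, div_le_div_iff_of_pos_right (Real.sqrt_pos.mpr hn0),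
    Real.rpow_neg (by norm_num), ← div_eq_mul_inv,
    div_le_iff₀ (Real.rpow_pos_of_pos (by norm_num) _)] at h8
  linarith

/-- **Theorem.** Let `μ` be the connective constant of `ℤ²`, `p_{2n}` the number of self-avoiding
polygons of perimeter `2n` up to translation and `θ_n = -log (p_{2n} / μ^(2n)) / log n`; Q1 implies
`θ_n → 5/2`. There is `K` such that:
(1) if for some `ε > 0` infinitely many `n` have `θ_n ≤ x - ε` and infinitely many `θ_n ≥ x + ε`, then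
for every `B > 0` and each parity infinitely many `n` of this parity have
`|p_{2n} / (μ^(2n) n^(-x)) - B| ≤ K (1 + |x|) B log n / √n`;
(2) the set of limit points of `θ_n` in `ℝ` is closed and an interval, contained in `[1, ∞)`;
(3) `θ_n → γ` if and only if `γ` is a limit point near which there are only countably many limit
points;
(4) either `θ_n → ∞`, or `θ_n` converges, or there is an interval of exponents `x`, for all of which
the conclusion of (1) holds;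
(5) for every `ε > 0` infinitely many `n` have `θ_n ≥ 3/2 - ε`; if moreover infinitely many `n` have
`θ_n ≤ 3/2 - ε`, for some `ε > 0`, then the conclusion of (1) holds for all `x` in the interval
`(3/2 - ε, 3/2)`. -/
theorem result : ∃ μ : ℝ, 0 < μ ∧
    Tendsto (fun n : ℕ => (c n : ℝ) ^ ((1:ℝ) / (n : ℝ))) atTop (𝓝 μ) ∧ ∃ K : ℝ, 0 < K ∧
    (∀ x ε : ℝ, 0 < ε → (∃ᶠ n in atTop, θ μ n ≤ x - ε) → (∃ᶠ n in atTop, x + ε ≤ θ μ n) →
      ∀ B : ℝ, 0 < B → ∀ i : ℕ, i ≤ 1 → PowerLaw μ K x B i) ∧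
    (IsClosed (limitPoints μ) ∧ (limitPoints μ).OrdConnected ∧ limitPoints μ ⊆ Set.Ici 1) ∧
    (∀ γ : ℝ, Tendsto (θ μ) atTop (𝓝 γ) ↔ γ ∈ limitPoints μ ∧
      ∃ δ : ℝ, 0 < δ ∧ (limitPoints μ ∩ Set.Ioo (γ - δ) (γ + δ)).Countable) ∧
    (Tendsto (θ μ) atTop atTop ∨ (∃ γ, Tendsto (θ μ) atTop (𝓝 γ)) ∨
      ∃ y z : ℝ, y < z ∧ ∀ x ∈ Set.Ioo y z, ∀ B : ℝ, 0 < B → ∀ i : ℕ, i ≤ 1 →
        PowerLaw μ K x B i) ∧
    ∀ ε : ℝ, 0 < ε → (∃ᶠ n in atTop, 3 / 2 - ε ≤ θ μ n) ∧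
      ((∃ᶠ n in atTop, θ μ n ≤ 3 / 2 - ε) → ∀ x ∈ Set.Ioo (3 / 2 - ε) (3 / 2), ∀ B : ℝ, 0 < B →
        ∀ i : ℕ, i ≤ 1 → PowerLaw μ K x B i) := by
  obtain ⟨μ, hμ, hlim, K1, hK1⟩ := Pool.Agent.Results.MP_376faf_co.PolygonsInverseLength.result
  obtain ⟨μ', hμ', hlim', K2, hK2⟩ := Pool.Agent.Results.MP_376faf_co.RatioRateLogTwo.result
  have hcC : ∀ n, ((Pool.Agent.Results.MP_376faf_co.RatioRateLogTwo.C n : ℕ) : ℝ) = (c n : ℝ) := by
    intro n
    rw [c_eq, H981.cr'_eq]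
    rfl
  have hmm : μ' = μ := by
    simp only [hcC] at hlim'
    exact tendsto_nhds_unique hlim' hlim
  subst hmm
  rename' μ' => μ
  set v : ℕ → ℝ := fun n => μ ^ (2 * n) / p n with hvd
  have hv : ∀ n, 2 ≤ n → 0 < v n := fun n hn => div_pos (by positivity) (p_pos hn)
  have hex : ∀ n, Pool.Agent.R79.SW.ex v n = θ μ n := by
    intro n
    unfold Pool.Agent.R79.SW.ex θ
    rw [← Real.log_inv, inv_div]
  have hexf : Pool.Agent.R79.SW.ex v = θ μ := funext hex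
  have hratio := ratio_bound hμ hK2
  obtain ⟨K0, hK0⟩ := hratio
  have hK1pos : 0 < K1 := by
    have h1 := (hK1 2 le_rfl).1
    have h2 : 0 < p 2 := p_pos le_rfl
    have h3 : (0 : ℝ) < μ ^ (2 * 2) := by positivity
    by_contra hc
    push Not at hc
    have h4 : K1 / ((2 : ℕ) : ℝ) * μ ^ (2 * 2) ≤ 0 :=
      mul_nonpos_of_nonpos_of_nonneg (div_nonpos_of_nonpos_of_nonneg hc (by positivity)) h3.le
    have h5 : p 2 ≤ K1 / ((2 : ℕ) : ℝ) * μ ^ (2 * 2) := h1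
    linarith
  have hlow : ∀ y : ℝ, y < 1 → ∀ᶠ n in atTop, y ≤ θ μ n := by
    intro y hy
    have hl : Tendsto (fun n : ℕ => Real.log n) atTop atTop := Pool.Agent.R79.SW.log_tend
    filter_upwards [hl.eventually_ge_atTop (Real.log K1 / (1 - y)), hl.eventually_gt_atTop 0,
      eventually_ge_atTop 2] with n h1 h2 h3
    have hn : (0 : ℝ) < n := by exact_mod_cast (by omega : 0 < n)
    have hp := p_pos h3
    have hm : (0 : ℝ) < μ ^ (2 * n) := by positivity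
    rw [← hex]
    unfold Pool.Agent.R79.SW.ex
    rw [le_div_iff₀ h2]
    have h4 : (n : ℝ) / K1 ≤ v n := by
      rw [hvd]
      simp only
      rw [div_le_div_iff₀ hK1pos hp]
      have h5 : p n ≤ K1 / n * μ ^ (2 * n) := (hK1 n h3).1
      calc (n : ℝ) * p n ≤ n * (K1 / n * μ ^ (2 * n)) := mul_le_mul_of_nonneg_left h5 hn.le
        _ = μ ^ (2 * n) * K1 := by field_simp
    have h6 := Real.log_le_log (by positivity) h4
    rw [Real.log_div hn.ne' hK1pos.ne'] at h6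
    have h7 : Real.log K1 ≤ (1 - y) * Real.log n := by
      rw [div_le_iff₀ (by linarith)] at h1
      linarith
    nlinarith
  obtain ⟨K, hK, P1, ⟨P2, P2'⟩, P3, P4⟩ := pack' hv hK0 (b := 0) (by
    rw [hexf]; exact hlow 0 zero_lt_one)
  rw [hexf] at P1 P2 P2' P3 P4
  have conv : ∀ {x B : ℝ} {i : ℕ}, 0 < B → (∀ B : ℝ, 0 < B → ∃ᶠ n : ℕ in atTop, n % 2 = i ∧
      |v n / (n : ℝ) ^ x - B| ≤ K * (1 + |x|) * B * (Real.log n / Real.sqrt n)) →
      PowerLaw μ (2 * K) x B i := by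
    intro x B i hB h
    have hf : Tendsto (fun n : ℕ => K * (1 + |x|) * (Real.log n / Real.sqrt n)) atTop (𝓝 0) := by
      have := (Pool.Agent.R956.D2.f_tendsto).const_mul (K * (1 + |x|))
      rw [mul_zero] at this
      exact this
    have hf2 : ∀ᶠ n : ℕ in atTop, K * (1 + |x|) * (Real.log n / Real.sqrt n) ≤ 1 / 2 :=
      hf.eventually_le_const (by norm_num)
    refine (((h B⁻¹ (inv_pos.mpr hB)).and_eventually hf2).and_eventually
      (eventually_ge_atTop 2)).mono fun n hn => ?_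
    obtain ⟨⟨⟨h1, h2⟩, h3⟩, h4⟩ := hn
    refine ⟨h1, ?_⟩
    have hn0 : (0 : ℝ) < n := by exact_mod_cast (by omega : 0 < n)
    set F := K * (1 + |x|) * (Real.log n / Real.sqrt n) with hF
    set w := v n / (n : ℝ) ^ x with hw
    have hw0 : 0 < w := div_pos (hv n h4) (Real.rpow_pos_of_pos hn0 _)
    have e1 : p n / μ ^ (2 * n) * (n : ℝ) ^ x = w⁻¹ := by
      rw [hw, hvd]
      simp only
      rw [inv_div, div_div_eq_mul_div, div_mul_eq_mul_div]
      congr 1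
      ring
    have h5 : |w - B⁻¹| ≤ F * B⁻¹ := by
      calc |w - B⁻¹| ≤ K * (1 + |x|) * B⁻¹ * (Real.log n / Real.sqrt n) := h2
        _ = F * B⁻¹ := by rw [hF]; ring
    have hBi : 0 < B⁻¹ := inv_pos.mpr hB
    have h6 : B⁻¹ / 2 ≤ w := by
      have := (abs_le.mp h5).1
      nlinarith
    have e2 : w⁻¹ - B = (B⁻¹ - w) * (B * w⁻¹) := by
      field_simp
    have h7 : w⁻¹ ≤ 2 * B := by
      rw [inv_le_comm₀ hw0 (by positivity)]
      calc (2 * B)⁻¹ = B⁻¹ / 2 := by rw [mul_inv]; ring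
        _ ≤ w := h6
    rw [e1, e2, abs_mul, abs_sub_comm, abs_of_pos (by positivity : 0 < B * w⁻¹)]
    calc |w - B⁻¹| * (B * w⁻¹) ≤ (F * B⁻¹) * (B * (2 * B)) := by
          refine mul_le_mul h5 (mul_le_mul_of_nonneg_left h7 hB.le) (by positivity) ?_
          exact (abs_nonneg _).trans h5
      _ = 2 * F * B := by field_simp
      _ = 2 * K * (1 + |x|) * B * (Real.log n / Real.sqrt n) := by rw [hF]; ring
  have Q1 : ∀ x ε : ℝ, 0 < ε → (∃ᶠ n in atTop, θ μ n ≤ x - ε) → (∃ᶠ n in atTop, x + ε ≤ θ μ n) →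
      ∀ B : ℝ, 0 < B → ∀ i : ℕ, i ≤ 1 → PowerLaw μ (2 * K) x B i :=
    fun x ε hε h1 h2 B hB i hi => conv hB fun B hB => P1 x ε hε h1 h2 B hB i hi
  have Q5 : ∀ ε : ℝ, 0 < ε → ∃ᶠ n in atTop, 3 / 2 - ε ≤ θ μ n := by
    have key : ∀ ε : ℝ, 0 < ε → ε ≤ 1 → ∃ᶠ n in atTop, 3 / 2 - ε ≤ θ μ n := by
      intro ε hε hε1 hcon
      have hcon' : ∀ᶠ n in atTop, θ μ n < 3 / 2 - ε := by
        simpa only [Filter.eventually_iff, not_le] using hcon
      exact sum_contra hμ hK1pos hε hε1 (fun n hn => (hK1 n hn).2.1) hcon'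
    intro ε hε
    rcases le_total ε 1 with h | h
    · exact key ε hε h
    · exact (key 1 one_pos le_rfl).mono fun n hn => by linarith
  refine ⟨μ, hμ, hlim, 2 * K, by linarith, Q1, ⟨P2, P2', ?_⟩, P3, ?_, ?_⟩
  · intro x hx
    by_contra hc
    have hx1 : x < 1 := not_le.mp hc
    have h1 := Pool.Agent.R79.SW.freq_low (c := (x + 1) / 2) (g := θ μ) hx (by linarith)
    obtain ⟨n, h2, h3⟩ := (h1.and_eventually (hlow ((x + 1) / 2 + (1 - x) / 4) (by linarith))).exists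
    linarith
  · rcases P4 with h | h | ⟨y, z, hyz, h⟩
    · exact Or.inl h
    · exact Or.inr (Or.inl h)
    · exact Or.inr (Or.inr ⟨y, z, hyz, fun x hx B hB i hi => conv hB fun B hB => h x hx B hB i hi⟩)
  · intro ε hε
    refine ⟨Q5 ε hε, fun h x hx B hB i hi => ?_⟩
    have h1 : 0 < min (x - (3 / 2 - ε)) ((3 / 2 - x) / 2) :=
      lt_min (by linarith [hx.1]) (by linarith [hx.2])
    refine Q1 x _ h1 (h.mono fun n hn => ?_) ((Q5 ((3 / 2 - x) / 2) (by linarith [hx.2])).mono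
      fun n hn => ?_) B hB i hi
    · have := min_le_left (x - (3 / 2 - ε)) ((3 / 2 - x) / 2)
      linarith
    · have := min_le_right (x - (3 / 2 - ε)) ((3 / 2 - x) / 2)
      linarith

end Pool.Agent.Results.MP_376faf_co.PowerLawsBetween
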